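import Pool.Agent.WAR.StmtsM
import Pool.Agent.WAR.StmtsT
import Pool.Agent.WAR.Alg

/-! Row RCG of squad WAR (MP_ff4683_nt): every open set is reached from `Q = O`
(the proof of Pool/Agent/Helper76_WAQ/RCG.lean with the condition `CycPr`). -/

set_option autoImplicit false

namespace Pool.Agent.WAR.H39

open Classical Polynomial WeierstrassCurve.Affine

variable [Par]

theorem fin_x {F : Type} [Field F] {d : F} (hd : d ≠ 0) (c : F) :
    {P : Pt d | xn P = c}.Finite := by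
  by_cases h : ∃ P0 : Pt d, P0 ≠ 0 ∧ xn P0 = c
  · obtain ⟨P0, h0, h1⟩ := h
    refine Set.Finite.subset (Set.toFinite ({0, P0, -P0} : Set (Pt d))) ?_
    intro P hP
    have hP1 : xn P = c := hP
    by_cases h2 : P = 0
    · left
      exact h2
    · rcases G.eq_or_neg_of_xn hd h2 h0 (by rw [hP1, h1]) with h3 | h3
      · right
        left
        exact h3
      · right
        right
        exact h3
  · refine Set.Finite.subset (Set.toFinite ({0} : Set (Pt d))) ?_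
    intro P hP
    have hP1 : xn P = c := hP
    by_contra h2
    exact h ⟨P, h2, hP1⟩

theorem xn_eqn {F : Type} [Field F] {d : F} (hd : d ≠ 0) (P : Pt d) :
    cY P ^ 2 = d ^ 3 * cub (xn P) := by
  have h1 : cX P = d * xn P := by
    unfold xn
    field_simp
  have h2 : cY P ^ 2 = cX P * (cX P - d * ea F) * (cX P - d * eb F) := by
    rcases P with _ | ⟨x, y, h⟩
    · show (0 : F) ^ 2 = 0 * (0 - d * ea F) * (0 - d * eb F)
      ring
    · exact (W_equation d x y).mp h.1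
  rw [h2, h1]
  unfold cub
  ring

/-- there are only finitely many bad points -/
theorem fin_bad {F : Type} [Field F] [Gd F] {d : F} (hd : d ≠ 0) :
    {P : Pt d | cY P = 0 ∨ (ea F - eb F) * xn P = ea F * eb F}.Finite := by
  refine Set.Finite.subset ((((fin_x hd (0 : F)).union (fin_x hd (ea F))).union
    (fin_x hd (eb F))).union (fin_x hd (ea F * eb F / (ea F - eb F)))) ?_
  rintro P (h | h)
  · have h3 := xn_eqn hd P
    rw [h] at h3
    have h4 : cub (xn P) = 0 := by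
      rcases mul_eq_zero.mp (show d ^ 3 * cub (xn P) = 0 by
        rw [← h3]; ring) with h5 | h5
      · exact absurd h5 (pow_ne_zero 3 hd)
      · exact h5
    unfold cub at h4
    left
    rcases mul_eq_zero.mp h4 with h5 | h5
    · left
      rcases mul_eq_zero.mp h5 with h6 | h6
      · left
        exact h6
      · right
        exact sub_eq_zero.mp h6
    · right
      exact sub_eq_zero.mp h5
  · right
    show xn P = ea F * eb F / (ea F - eb F)
    have h1 : ea F - eb F ≠ 0 := sub_ne_zero.mpr Gd.ab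
    rw [eq_div_iff h1, mul_comm]
    exact h

theorem run_app {F : Type} [Field F] (L M : List Letter) (z z1 z' : F × F × F)
    (h1 : Run L z z1) (h2 : Run M z1 z') : Run (L ++ M) z z' := by
  induction L generalizing z with
  | nil =>
    obtain ⟨_, h⟩ := h1
    rw [h] at h2
    exact h2
  | cons l L ih =>
    obtain ⟨w, hw, hw1⟩ := h1
    exact ⟨w, hw, ih w hw1⟩

theorem alg1 {F : Type} [Field F] {d : F} (a b c e : ℤ)
    (h : a * e - b * c = 1) (P Q T t p q : Pt d) :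
    sm (-b) (q + T) + sm (-e) (-(sm a P + sm b Q) + t + p) =
      P + (sm b (sm c P + sm e Q - T) - sm b q - sm e t - sm e p) := by
  simp only [sm_def]
  have h1 : (e * a) • P = P + (b * c) • P := by
    have : e * a = 1 + b * c := by linear_combination h
    rw [this, add_smul, one_smul]
  simp only [smul_add, smul_sub, smul_neg, neg_smul, smul_smul, neg_mul]
  rw [h1, mul_comm e b]
  abel

theorem alg2 {F : Type} [Field F] {d : F} (a b c e : ℤ)
    (h : a * e - b * c = 1) (P Q T t p q : Pt d) :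
    sm a (q + T) + sm c (-(sm a P + sm b Q) + t + p) =
      Q + (-(sm a (sm c P + sm e Q - T)) + sm a q + sm c t + sm c p) := by
  simp only [sm_def]
  have h1 : (a * e) • Q = Q + (c * b) • Q := by
    have : a * e = 1 + c * b := by linear_combination h
    rw [this, add_smul, one_smul]
  simp only [smul_add, smul_sub, smul_neg, neg_sub, neg_add, smul_smul]
  rw [h1, mul_comm c a]
  abel

theorem rcg (uni : UniStmt) (ngl : NglStmt) (twd : TwdStmt) (zlv : ZlvStmt) (lvb : LvbStmt)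
    (nrm : NrmStmt) (fra : FraStmt) (kuc : KucStmt) (gdf : GdfStmt) (inf : InfStmt)
    (ufr : UfrStmt) : RcgRow := by
  intro F _ ϖ hL V hV hz
  obtain ⟨z0, hz0V, hz0U, hz0P⟩ := hz
  have hG : GoodF F := gdf F (Or.inl ⟨ϖ, hL⟩)
  have hGd : Gd F := hL.gd
  have h20 : (2 : F) ≠ 0 := hL.two_ne
  obtain ⟨d, P0, Q0, hd, hk⟩ := nrm F ϖ hL z0 hz0U
  have hd0 : d ≠ 0 := by
    rintro rfl
    rcases hd with h | h
    · simp at h
    · have := hL.uni
      unfold qn at h
      rw [norm_zero] at h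
      linarith
  rw [hk] at hz0V hz0U hz0P
  have hcyc : CycPr P0 Q0 := ufr F ϖ hL d P0 Q0 hd0 hz0U hz0P
  obtain ⟨N, hN⟩ := kuc F hG d hd0 P0 Q0 hz0U V hV hz0V
  obtain ⟨lv1, lv2⟩ := lvb F ϖ hL d hd0
  obtain ⟨ρ, hρ, hρN⟩ := lv1 N
  obtain ⟨a, b, c, e, T, hdet, hT, hQ1⟩ := uni F ϖ hL d hd P0 Q0 ρ hρ hcyc
  obtain ⟨N1, hN1⟩ := lv2 ρ hρ
  obtain ⟨z1, z2, -⟩ := zlv F ϖ hL d hd0
  obtain ⟨tw, htw, htw2⟩ := twd F h20 d hd0 T hT
  -- choose `t`
  have hbadfin : {t : Pt d | cY (-(sm a P0 + sm b Q0) + t) = 0 ∨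
      (ea F - eb F) * xn (-(sm a P0 + sm b Q0) + t) = ea F * eb F}.Finite := by
    have h3 := (fin_bad (F := F) hd0).preimage
      (f := fun t : Pt d => -(sm a P0 + sm b Q0) + t) (fun x _ y _ hxy => add_left_cancel hxy)
    exact h3
  obtain ⟨t, ht1, ht2⟩ := (inf F hG d hd0 N1).exists_notMem_finite hbadfin
  have htL : Lev ρ t := hN1 t ht1
  have hY : cY (-(sm a P0 + sm b Q0) + t) ≠ 0 := fun h => ht2 (Or.inl h)
  have hX : (ea F - eb F) * xn (-(sm a P0 + sm b Q0) + t) ≠ ea F * eb F :=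
    fun h => ht2 (Or.inr h)
  obtain ⟨r, hr, hr2⟩ := ngl F ϖ hL d hd0 (-(sm a P0 + sm b Q0) + t) hY N1
  have hxe := xn_eqn hd0 (-(sm a P0 + sm b Q0) + t)
  have hY2 : cY (-(sm a P0 + sm b Q0) + t) ^ 2 ≠ 0 := pow_ne_zero 2 hY
  refine ⟨tw, -b, -e, a, c, xn (-(sm a P0 + sm b Q0) + t), r, htw, ?_, hr, ⟨?_, ?_, ?_, hX⟩, ?_⟩
  · linear_combination hdet
  · intro h
    apply hY2
    rw [hxe, h, G.cub_zero]
    ring
  · intro h
    apply hY2
    rw [hxe, h, G.cub_ea]
    ring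
  · intro h
    apply hY2
    rw [hxe, h, G.cub_eb]
    ring
  · intro z hz
    obtain ⟨p, q, hp, hq, hzk⟩ := hr2 z hz
    have hpL : Lev ρ p := hN1 p hp
    have hqL : Lev ρ q := hN1 q hq
    have hzU : OnU z := hz.1
    have hzU1 : OnU (kum d (-(sm a P0 + sm b Q0) + t + p) q) := by
      rw [← hzk]
      exact hzU
    obtain ⟨hU2, hrun⟩ := htw2 _ _ hzU1
    rw [← hzk] at hrun
    have hU3 : OnU (kum d (q + T) (-(sm a P0 + sm b Q0) + t + p)) := by
      rw [← G.swf_kum]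
      exact G.onU_swf hU2
    have hf := fra F h20 d (q + T) (-(sm a P0 + sm b Q0) + t + p) (-b) (-e) a c hd0 hU3
    rw [alg1 a b c e hdet, alg2 a b c e hdet] at hf
    have hL1 : Lev ρ (sm b (sm c P0 + sm e Q0 - T) - sm b q - sm e t - sm e p) :=
      (z1 ρ _ _ (z1 ρ _ _ (z1 ρ _ _ (z2 ρ b _ hQ1) (z2 ρ b q hqL)).2.2
        (z2 ρ e t htL)).2.2 (z2 ρ e p hpL)).2.2
    have hL2 : Lev ρ (-(sm a (sm c P0 + sm e Q0 - T)) + sm a q + sm c t + sm c p) :=
      (z1 ρ _ _ (z1 ρ _ _ (z1 ρ _ _ (z1 ρ _ _ (z2 ρ a _ hQ1) (z2 ρ a _ hQ1)).2.1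
        (z2 ρ a q hqL)).1 (z2 ρ c t htL)).1 (z2 ρ c p hpL)).1
    obtain ⟨hv, hu⟩ := hN _ _ (hρN _ hL1) (hρN _ hL2)
    rw [← hf] at hv hu
    refine ⟨_, hv, run_app tw _ z _ _ hrun ?_⟩
    refine ⟨kum d (q + T) (-(sm a P0 + sm b Q0) + t + p), ⟨hU2, hU3, (G.swf_kum _ _).symm⟩, ?_⟩
    refine ⟨_, ⟨hU3, hu, ?_, rfl⟩, hu, rfl⟩
    linear_combination hdet

end Pool.Agent.WAR.H39
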